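import Pool.Agent.X229.OndCore

/-!
# The non-determinism hierarchy of propagating programmed grammars is strict

Programmed grammars without appearance checking; terminals are natural numbers (the universal
terminal alphabet), each grammar using finitely many of them.
-/

namespace Pool.Agent.Results.MP_67c3d0_lc.OndHierarchy

open Pool.Agent.X229.OndCore

/-- A programmed grammar (without appearance checking): finite sets `N` of nonterminals and
`Lab` of labels, start symbol `S`, and for each label `r` one rule `lhs r → rhs r` with success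
field `succ r`. Terminals are natural numbers; `Sum.inl` marks nonterminals and `Sum.inr`
marks terminals. -/
structure PGram where
  /-- nonterminals -/
  N : Type
  /-- labels -/
  Lab : Type
  fN : Fintype N
  fL : Fintype Lab
  /-- start symbol -/
  S : N
  /-- left-hand sides -/
  lhs : Lab → N
  /-- right-hand sides -/
  rhs : Lab → List (N ⊕ ℕ)
  /-- success fields -/
  succ : Lab → Finset Lab

attribute [instance] PGram.fN PGram.fL

/-- The derivation step `(u, r) ⇒ (v, q)`. -/
def PGram.Step (G : PGram) (c c' : List (G.N ⊕ ℕ) × G.Lab) : Prop :=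
  ∃ u v : List (G.N ⊕ ℕ), c.1 = u ++ [Sum.inl (G.lhs c.2)] ++ v ∧
    c'.1 = u ++ G.rhs c.2 ++ v ∧ c'.2 ∈ G.succ c.2

/-- The language: terminal words `x` with `(S, p) ⇒* (x, q)` for some labels `p`, `q`. -/
def PGram.lang (G : PGram) : Set (List ℕ) :=
  {x | ∃ p q : G.Lab, Relation.ReflTransGen G.Step ([Sum.inl G.S], p) (x.map Sum.inr, q)}

/-- `G` is propagating: no erasing rule. -/
def PGram.Propagating (G : PGram) : Prop := ∀ r, G.rhs r ≠ []

/-- The overall non-determinism: the sum of the sizes of the success fields having at least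
two elements. -/
def PGram.ond (G : PGram) : ℕ := ∑ r : G.Lab, if 2 ≤ (G.succ r).card then (G.succ r).card else 0

/-- The family `OND(P^{-ε}, n)`: languages generated by a propagating programmed grammar with
overall non-determinism at most `n`. -/
def OND (n : ℕ) : Set (Set (List ℕ)) :=
  {L | ∃ G : PGram, G.Propagating ∧ G.lang = L ∧ G.ond ≤ n}

/-- The witness language `⋃_{i < n} {aᵢ}⁺`. -/
def LL (n : ℕ) : Set (List ℕ) := {w | ∃ i < n, ∃ m, w = List.replicate (m + 1) i}

/-! ### Lower bound -/

theorem exists_path {α : Type} {r : α → α → Prop} {a b : α} (h : Relation.ReflTransGen r a b) :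
    ∃ (k : ℕ) (f : ℕ → α), f 0 = a ∧ f k = b ∧ ∀ t < k, r (f t) (f (t + 1)) := by
  induction h with
  | refl => exact ⟨0, fun _ => a, rfl, rfl, fun t ht => absurd ht (Nat.not_lt_zero t)⟩
  | tail _ hbc ih =>
    rename_i b c _
    obtain ⟨k, f, h0, hk, hf⟩ := ih
    refine ⟨k + 1, fun t => if t ≤ k then f t else c, by simp [h0], by simp, ?_⟩
    intro t ht
    rcases Nat.lt_or_ge t k with h | h
    · have h1 : t ≤ k := h.le
      have h2 : t + 1 ≤ k := h
      simp only [h1, h2, if_true]
      exact hf t h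
    · have h1 : t = k := by omega
      subst h1
      simp only [le_refl, if_true]
      rw [if_neg (by omega), hk]
      exact hbc

/-- The number of nonterminals of a sentential form. -/
def nts {N : Type} (w : List (N ⊕ ℕ)) : ℕ := w.countP (fun s => s.isLeft)

/-- The number of occurrences of the terminal `a`. -/
def cnt {N : Type} (a : ℕ) (w : List (N ⊕ ℕ)) : ℕ :=
  w.countP (fun s => Sum.elim (fun _ => false) (fun b => b == a) s)

theorem cnt_append {N : Type} (a : ℕ) (u v : List (N ⊕ ℕ)) :
    cnt a (u ++ v) = cnt a u + cnt a v := List.countP_append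

theorem cnt_le {N : Type} (a : ℕ) (u : List (N ⊕ ℕ)) : cnt a u ≤ u.length :=
  List.countP_le_length

theorem cnt_zero {N : Type} (a : ℕ) (u : List (N ⊕ ℕ)) (h : Sum.inr a ∉ u) : cnt a u = 0 := by
  unfold cnt
  rw [List.countP_eq_zero]
  rintro (x | b) hs
  · simp
  · intro hb
    have : b = a := by simpa using hb
    subst this
    exact h hs

theorem cnt_rep {N : Type} (a : ℕ) (m : ℕ) :
    cnt (N := N) a (List.replicate m (Sum.inr a)) = m := by
  unfold cnt
  rw [List.countP_replicate]
  simp

theorem lower {n : ℕ} (hn : 1 ≤ n) (G : PGram) (hL : G.lang = LL n) : n + 1 ≤ G.ond := by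
  classical
  -- the bound on lengths of right-hand sides
  obtain ⟨c₀, hc₀⟩ : ∃ c₀ : ℕ, ∀ r, (G.rhs r).length ≤ c₀ :=
    ⟨Finset.univ.sup (fun r => (G.rhs r).length), fun r =>
      Finset.le_sup (f := fun r => (G.rhs r).length) (Finset.mem_univ r)⟩
  set Q := Fintype.card G.Lab with hQ
  set K := BB Q c₀ (2 * Q + 2) + (Q + 1) * (c₀ * Q + 2) + 2 * Q + 2 with hK
  set M := (K + Q + 1) * c₀ with hM
  have hder : ∀ i : Fin n, ∃ (k : ℕ) (f : ℕ → List (G.N ⊕ ℕ) × G.Lab),
      (f 0).1 = [Sum.inl G.S] ∧ (f k).1 = List.replicate (M + 1) (Sum.inr (i : ℕ)) ∧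
        ∀ t < k, G.Step (f t) (f (t + 1)) := by
    intro i
    have hmem : List.replicate (M + 1) (i : ℕ) ∈ G.lang := by
      rw [hL]; exact ⟨i, i.2, M, rfl⟩
    obtain ⟨p, q, h⟩ := hmem
    obtain ⟨k, f, h0, hk, hf⟩ := exists_path h
    exact ⟨k, f, by rw [h0], by rw [hk]; simp, hf⟩
  choose k f hf0 hfk hf using hder
  set dt : G.Lab → ℤ := fun r => (nts (G.rhs r) : ℤ) - 1 with hdt
  have hrun : ∀ i, Run G.succ dt (fun t => (f i t).2) (fun t => (nts (f i t).1 : ℤ)) (k i) := by
    intro i
    refine ⟨?_, ?_, ?_, ?_, ?_⟩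
    · show (nts (f i 0).1 : ℤ) = 1
      rw [hf0]; rfl
    · show (nts (f i (k i)).1 : ℤ) = 0
      rw [hfk]
      simp [nts, List.countP_replicate]
    · intro t ht
      obtain ⟨u, v, h1, -, -⟩ := hf i t ht
      show (1 : ℤ) ≤ (nts (f i t).1 : ℤ)
      rw [h1, nts, List.countP_append, List.countP_append]
      simp
      omega
    · intro t ht
      obtain ⟨u, v, h1, h2, -⟩ := hf i t ht
      show (nts (f i (t + 1)).1 : ℤ) = (nts (f i t).1 : ℤ) + ((nts (G.rhs (f i t).2) : ℤ) - 1)
      rw [h1, h2]
      simp only [nts, List.countP_append, List.countP_cons, List.countP_nil]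
      simp
      ring
    · intro t ht
      obtain ⟨u, v, -, -, h3⟩ := hf i t ht
      exact h3
  -- terminals persist
  have hpers : ∀ i (a : ℕ) (m t : ℕ), t + m ≤ k i → Sum.inr a ∈ (f i t).1 →
      Sum.inr a ∈ (f i (t + m)).1 := by
    intro i a m
    induction m with
    | zero => intro t _ h; simpa using h
    | succ m ih =>
      intro t hk h
      have h1 := ih t (by omega) h
      obtain ⟨u, v, h2, h3, -⟩ := hf i (t + m) (by omega)
      rw [h2] at h1
      rw [show t + (m + 1) = t + m + 1 by ring, h3]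
      simp only [List.mem_append, List.mem_singleton] at h1 ⊢
      rcases h1 with (h1 | h1) | h1
      · exact Or.inl (Or.inl h1)
      · exact absurd h1 (by simp)
      · exact Or.inr h1
  have hcount : ∀ i (a : ℕ) t, t < k i → cnt a (f i (t + 1)).1 ≤
      cnt a (f i t).1 + (if Sum.inr a ∈ G.rhs (f i t).2 then c₀ else 0) := by
    intro i a t ht
    obtain ⟨u, v, h1, h2, -⟩ := hf i t ht
    rw [h1, h2]
    simp only [cnt_append]
    have h3 : cnt a (G.rhs (f i t).2) ≤
        (if Sum.inr a ∈ G.rhs (f i t).2 then c₀ else 0) := by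
      split_ifs with h
      · exact (cnt_le _ _).trans (hc₀ _)
      · rw [cnt_zero _ _ h]
    omega
  have hcount' : ∀ i (a : ℕ) t, t ≤ k i → cnt a (f i t).1 ≤ t * c₀ := by
    intro i a t
    induction t with
    | zero =>
      intro _
      rw [hf0, cnt_zero _ _ (by simp)]
      omega
    | succ t ih =>
      intro ht
      have h1 := ih (by omega)
      have h2 := hcount i a t (by omega)
      have h3 : (if Sum.inr a ∈ G.rhs (f i t).2 then c₀ else 0) ≤ c₀ := by split_ifs <;> omega
      have h4 : (t + 1) * c₀ = t * c₀ + c₀ := by ring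
      omega
  have hfin : ∀ i : Fin n, cnt (i : ℕ) (f i (k i)).1 = M + 1 := by
    intro i
    rw [hfk, cnt_rep]
  have hklong : ∀ i, K + Q + 1 < k i := by
    intro i
    by_contra hlt
    have h1 := hcount' i i (k i) le_rfl
    rw [hfin] at h1
    have h2 : k i * c₀ ≤ (K + Q + 1) * c₀ := Nat.mul_le_mul_right _ (by omega)
    omega
  have hmain := core (succ := G.succ) (dt := dt) hn
    (fun i => {r | Sum.inr (i : ℕ) ∈ G.rhs r}) (c₀ := c₀) (by
      intro r
      have h1 : nts (G.rhs r) ≤ (G.rhs r).length := List.countP_le_length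
      have h2 := hc₀ r
      show (nts (G.rhs r) : ℤ) - 1 ≤ c₀
      have h3 : (nts (G.rhs r) : ℤ) ≤ c₀ := by exact_mod_cast h1.trans h2
      omega)
    (fun i t => (f i t).2) (fun i t => (nts (f i t).1 : ℤ)) k hrun ?_ ?_ ?_
  · unfold PGram.ond
    rw [← card_edges]
    exact hmain
  · -- avoidance
    intro i j hij t ht hmem
    obtain ⟨u, v, -, h2, -⟩ := hf i t ht
    have h3 : Sum.inr (j : ℕ) ∈ (f i (t + 1)).1 := by
      rw [h2]
      simp only [List.mem_append]
      exact Or.inl (Or.inr hmem)
    have h4 := hpers i j (k i - (t + 1)) (t + 1) (by omega) h3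
    rw [show t + 1 + (k i - (t + 1)) = k i by omega, hfk, List.mem_replicate] at h4
    have h5 : (j : ℕ) = i := by simpa using h4.2
    exact hij (Fin.ext h5.symm)
  · intro i
    have := hklong i
    rw [← hQ]
    omega
  · intro i
    rw [← hQ]
    by_contra hcon
    push Not at hcon
    -- then the number of letters is too small
    have h1 : ∀ m, Q + 1 + m ≤ k i →
        cnt (i : ℕ) (f i (Q + 1 + m)).1 ≤ (Q + 1) * c₀ := by
      intro m
      induction m with
      | zero => intro h; simpa using hcount' i i (Q + 1) (by omega)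
      | succ m ih =>
        intro h
        have h1 := ih (by omega)
        have h2 := hcount i i (Q + 1 + m) (by omega)
        have h3 : Sum.inr (i : ℕ) ∉ G.rhs (f i (Q + 1 + m)).2 := by
          intro hmem
          exact hcon (Q + 1 + m) (by omega) (by omega) hmem
        rw [if_neg h3] at h2
        rw [show Q + 1 + (m + 1) = Q + 1 + m + 1 by ring]
        omega
    have hkl := hklong i
    have h2 := h1 (k i - (Q + 1)) (by omega)
    rw [show Q + 1 + (k i - (Q + 1)) = k i by omega, hfin] at h2
    have h3 : (Q + 1) * c₀ ≤ (K + Q + 1) * c₀ := Nat.mul_le_mul_right _ (by omega)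
    omega

/-! ### Upper bound -/

/-- Nonterminals of the witness grammar. -/
inductive NT (n : ℕ)
  | S | A | Y (i : Fin n)
deriving DecidableEq, Fintype

/-- Labels of the witness grammar. -/
inductive Lb (n : ℕ)
  | p (i : Fin n) | s (i : Fin n) | r | q0 | q1 (i : Fin n) | q2 (i : Fin n)
deriving DecidableEq, Fintype

/-- Left-hand sides. -/
def lhs' (n : ℕ) : Lb n → NT n
  | .p _ => .S
  | .s _ => .S
  | .r => .A
  | .q0 => .A
  | .q1 i => .Y i
  | .q2 _ => .A

/-- Right-hand sides. -/
def rhs' (n : ℕ) : Lb n → List (NT n ⊕ ℕ)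
  | .p i => [Sum.inl (.Y i), Sum.inl .A]
  | .s i => [Sum.inr i]
  | .r => [Sum.inl .A]
  | .q0 => [Sum.inl .A, Sum.inl .A]
  | .q1 i => [Sum.inr i]
  | .q2 i => [Sum.inl (.Y i)]

/-- Success fields. -/
def succ' (n : ℕ) : Lb n → Finset (Lb n)
  | .p _ => {.r}
  | .s i => {.s i}
  | .r => insert .q0 (Finset.univ.image Lb.q1)
  | .q0 => {.r}
  | .q1 i => {.q2 i}
  | .q2 i => {.q1 i}

/-- The witness grammar. -/
def GG (n : ℕ) : PGram where
  N := NT n
  Lab := Lb n
  fN := inferInstance
  fL := inferInstance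
  S := .S
  lhs := lhs' n
  rhs := rhs' n
  succ := succ' n

theorem step_iff {n : ℕ} {c c' : List (NT n ⊕ ℕ) × Lb n} : (GG n).Step c c' ↔
    ∃ u v : List (NT n ⊕ ℕ), c.1 = u ++ [Sum.inl (lhs' n c.2)] ++ v ∧
      c'.1 = u ++ rhs' n c.2 ++ v ∧ c'.2 ∈ succ' n c.2 := Iff.rfl

theorem GG_prop (n : ℕ) : (GG n).Propagating := by
  intro x
  show rhs' n x ≠ []
  cases x <;> simp [rhs']

theorem card_succ_r (n : ℕ) :
    (insert Lb.q0 (Finset.univ.image (Lb.q1 (n := n)))).card = n + 1 := by
  rw [Finset.card_insert_of_notMem (by simp), Finset.card_image_of_injective]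
  · simp
  · intro a b h
    simpa using h

theorem GG_ond (n : ℕ) : (GG n).ond ≤ n + 1 := by
  unfold PGram.ond
  have h : ∀ x : Lb n, x ≠ Lb.r → (succ' n x).card = 1 := by
    intro x hx
    cases x <;> first | rfl | exact absurd rfl hx
  have h2 : (∑ x : Lb n, if 2 ≤ (succ' n x).card then (succ' n x).card else 0) =
      if 2 ≤ (succ' n Lb.r).card then (succ' n Lb.r).card else 0 := by
    apply Finset.sum_eq_single
    · intro x _ hx
      rw [h x hx]; simp
    · intro h; exact absurd (Finset.mem_univ _) h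
  have h3 : (succ' n Lb.r).card = n + 1 := card_succ_r n
  show (∑ x : Lb n, if 2 ≤ (succ' n x).card then (succ' n x).card else 0) ≤ n + 1
  rw [h2, h3]
  split_ifs <;> omega

/-- Symbols allowed in sentential forms for the letter `i`. -/
def Ok (n : ℕ) (i : Fin n) (x : NT n ⊕ ℕ) : Prop :=
  x = Sum.inl (.Y i) ∨ x = Sum.inl .A ∨ x = Sum.inr (i : ℕ)

/-- Invariant of the derivations. -/
def Inv (n : ℕ) (c : List (NT n ⊕ ℕ) × Lb n) : Prop :=
  c.1 = [Sum.inl .S] ∨ ∃ i : Fin n, c.1 ≠ [] ∧ (∀ x ∈ c.1, Ok n i x) ∧ ∀ j, c.2 = .q2 j → j = i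

theorem ok_sub {n : ℕ} {i : Fin n} {u v y : List (NT n ⊕ ℕ)} {z : NT n}
    (h : ∀ x ∈ u ++ [Sum.inl z] ++ v, Ok n i x) (hy : ∀ x ∈ y, Ok n i x) :
    ∀ x ∈ u ++ y ++ v, Ok n i x := by
  intro x hx
  simp only [List.mem_append] at hx
  rcases hx with (hx | hx) | hx
  · exact h x (by simp [hx])
  · exact hy x hx
  · exact h x (by simp [hx])

theorem inv_step {n : ℕ} {c c' : List (NT n ⊕ ℕ) × Lb n} (hc : Inv n c)
    (h : (GG n).Step c c') : Inv n c' := by
  rw [step_iff] at h
  obtain ⟨w, r⟩ := c
  obtain ⟨w', q⟩ := c'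
  obtain ⟨u, v, h1, h2, h3⟩ := h
  simp only at h1 h2 h3
  rcases hc with hc | ⟨i, hne, hok, hq⟩
  · simp only at hc
    rw [hc] at h1
    have hu : u = [] ∧ v = [] := by
      have := congrArg List.length h1
      simp only [List.length_append, List.length_cons, List.length_nil] at this
      constructor
      · exact List.eq_nil_of_length_eq_zero (by omega)
      · exact List.eq_nil_of_length_eq_zero (by omega)
    obtain ⟨rfl, rfl⟩ := hu
    simp only [List.nil_append, List.append_nil] at h1 h2
    cases r with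
    | p i =>
      right
      refine ⟨i, ?_, ?_, ?_⟩
      · simp only; rw [h2]; simp [rhs']
      · intro x hx
        simp only [h2, rhs', List.mem_cons, List.not_mem_nil, or_false] at hx
        rcases hx with rfl | rfl
        · exact Or.inl rfl
        · exact Or.inr (Or.inl rfl)
      · intro j hj
        simp only at hj
        subst hj
        simp [succ'] at h3
    | s i =>
      right
      refine ⟨i, ?_, ?_, ?_⟩
      · simp only; rw [h2]; simp [rhs']
      · intro x hx
        simp only [h2, rhs', List.mem_cons, List.not_mem_nil, or_false] at hx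
        subst hx
        exact Or.inr (Or.inr rfl)
      · intro j hj
        simp only at hj
        subst hj
        simp [succ'] at h3
    | r => simp [lhs'] at h1
    | q0 => simp [lhs'] at h1
    | q1 i => simp [lhs'] at h1
    | q2 i => simp [lhs'] at h1
  · simp only at hne hok hq
    rw [h1] at hok
    have hlhs : Ok n i (Sum.inl (lhs' n r)) := hok _ (by simp)
    right
    cases r with
    | p i => simp [lhs', Ok] at hlhs
    | s i => simp [lhs', Ok] at hlhs
    | r =>
      refine ⟨i, ?_, ?_, ?_⟩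
      · simp only; rw [h2]; simp [rhs']
      · simp only; rw [h2]
        refine ok_sub hok ?_
        intro x hx
        simp only [rhs', List.mem_cons, List.not_mem_nil, or_false] at hx
        subst hx
        exact Or.inr (Or.inl rfl)
      · intro j hj
        simp only at hj
        subst hj
        simp [succ'] at h3
    | q0 =>
      refine ⟨i, ?_, ?_, ?_⟩
      · simp only; rw [h2]; simp [rhs']
      · simp only; rw [h2]
        refine ok_sub hok ?_
        intro x hx
        simp only [rhs', List.mem_cons, List.not_mem_nil, or_false, or_self] at hx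
        subst hx
        exact Or.inr (Or.inl rfl)
      · intro j hj
        simp only at hj
        subst hj
        simp [succ'] at h3
    | q1 j =>
      have hji : j = i := by simpa [lhs', Ok] using hlhs
      subst hji
      refine ⟨j, ?_, ?_, ?_⟩
      · simp only; rw [h2]; simp [rhs']
      · simp only; rw [h2]
        refine ok_sub hok ?_
        intro x hx
        simp only [rhs', List.mem_cons, List.not_mem_nil, or_false] at hx
        subst hx
        exact Or.inr (Or.inr rfl)
      · intro j' hj'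
        simp only at hj'
        subst hj'
        simpa [succ'] using h3
    | q2 j =>
      have hji : j = i := hq j rfl
      subst hji
      refine ⟨j, ?_, ?_, ?_⟩
      · simp only; rw [h2]; simp [rhs']
      · simp only; rw [h2]
        refine ok_sub hok ?_
        intro x hx
        simp only [rhs', List.mem_cons, List.not_mem_nil, or_false] at hx
        subst hx
        exact Or.inl rfl
      · intro j' hj'
        simp only at hj'
        subst hj'
        simp [succ'] at h3

theorem inv_reach {n : ℕ} {p : Lb n} {c : List (NT n ⊕ ℕ) × Lb n}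
    (h : Relation.ReflTransGen (GG n).Step ([Sum.inl .S], p) c) : Inv n c := by
  induction h with
  | refl => exact Or.inl rfl
  | tail _ h2 ih => exact inv_step ih h2

theorem lang_sub (n : ℕ) : (GG n).lang ⊆ LL n := by
  rintro x ⟨p, q, h⟩
  have hinv : Inv n (x.map Sum.inr, q) := inv_reach h
  rcases hinv with h1 | ⟨i, h1, h2, -⟩
  · exfalso
    simp only at h1
    rcases x with _ | ⟨a, x⟩
    · simp at h1
    · simp at h1
  · simp only at h1 h2
    refine ⟨i, i.2, x.length - 1, ?_⟩
    have hx : x ≠ [] := by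
      rintro rfl
      exact h1 rfl
    have hl := List.length_pos_of_ne_nil hx
    rw [show x.length - 1 + 1 = x.length by omega, List.eq_replicate_iff]
    refine ⟨rfl, fun a ha => ?_⟩
    have := h2 (Sum.inr a) (List.mem_map_of_mem ha)
    simpa [Ok] using this

theorem st1 (n : ℕ) (u v w w' : List (NT n ⊕ ℕ)) (r q : Lb n)
    (h1 : w = u ++ [Sum.inl (lhs' n r)] ++ v) (h2 : w' = u ++ rhs' n r ++ v)
    (hq : q ∈ succ' n r) : (GG n).Step (w, r) (w', q) :=
  ⟨u, v, h1, h2, hq⟩

theorem reach_pump (n : ℕ) (i : Fin n) (m : ℕ) :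
    Relation.ReflTransGen (GG n).Step ([Sum.inl NT.S], Lb.p i)
      (Sum.inl (NT.Y i) :: List.replicate (m + 1) (Sum.inl NT.A), Lb.r) := by
  induction m with
  | zero =>
    exact Relation.ReflTransGen.single (st1 n [] [] _ _ (Lb.p i) Lb.r rfl rfl (by simp [succ']))
  | succ m ih =>
    have a1 := st1 n [Sum.inl (NT.Y i)] (List.replicate m (Sum.inl NT.A))
      (Sum.inl (NT.Y i) :: List.replicate (m + 1) (Sum.inl NT.A))
      (Sum.inl (NT.Y i) :: List.replicate (m + 1) (Sum.inl NT.A)) Lb.r Lb.q0 rfl rfl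
      (by simp [succ'])
    have a2 := st1 n [Sum.inl (NT.Y i)] (List.replicate m (Sum.inl NT.A))
      (Sum.inl (NT.Y i) :: List.replicate (m + 1) (Sum.inl NT.A))
      (Sum.inl (NT.Y i) :: List.replicate (m + 1 + 1) (Sum.inl NT.A)) Lb.q0 Lb.r rfl rfl
      (by simp [succ'])
    exact (ih.tail a1).tail a2

theorem reach_conv (n : ℕ) (i : Fin n) (m : ℕ) : ∀ l : ℕ,
    Relation.ReflTransGen (GG n).Step
      (List.replicate l (Sum.inr (i : ℕ)) ++ Sum.inl (NT.Y i) ::
        List.replicate m (Sum.inl NT.A), Lb.q1 i)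
      (List.replicate (l + m + 1) (Sum.inr (i : ℕ)), Lb.q2 i) := by
  induction m with
  | zero =>
    intro l
    refine Relation.ReflTransGen.single (st1 n (List.replicate l (Sum.inr (i : ℕ))) [] _ _
      (Lb.q1 i) (Lb.q2 i) ?_ ?_ (by simp [succ']))
    · simp [lhs']
      rfl
    · rw [List.replicate_succ']; simp [rhs']
      rfl
  | succ m ih =>
    intro l
    have a1 := st1 n (List.replicate l (Sum.inr (i : ℕ)))
      (List.replicate (m + 1) (Sum.inl NT.A))
      (List.replicate l (Sum.inr (i : ℕ)) ++ Sum.inl (NT.Y i) ::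
        List.replicate (m + 1) (Sum.inl NT.A))
      (List.replicate (l + 1) (Sum.inr (i : ℕ)) ++ [Sum.inl NT.A] ++
        List.replicate m (Sum.inl NT.A)) (Lb.q1 i) (Lb.q2 i)
      (by simp [lhs'])
      (by rw [List.replicate_succ' (n := l), List.replicate_succ (n := m)]; simp [rhs'])
      (by simp [succ'])
    have a2 := st1 n (List.replicate (l + 1) (Sum.inr (i : ℕ)))
      (List.replicate m (Sum.inl NT.A))
      (List.replicate (l + 1) (Sum.inr (i : ℕ)) ++ [Sum.inl NT.A] ++
        List.replicate m (Sum.inl NT.A))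
      (List.replicate (l + 1) (Sum.inr (i : ℕ)) ++ Sum.inl (NT.Y i) ::
        List.replicate m (Sum.inl NT.A)) (Lb.q2 i) (Lb.q1 i)
      (by simp [lhs']) (by simp [rhs']) (by simp [succ'])
    have a3 := ih (l + 1)
    rw [show l + 1 + m + 1 = l + (m + 1) + 1 by ring] at a3
    exact Relation.ReflTransGen.head a1 (Relation.ReflTransGen.head a2 a3)

theorem sub_lang (n : ℕ) : LL n ⊆ (GG n).lang := by
  rintro w ⟨i, hi, m, rfl⟩
  rcases m with _ | m
  · exact ⟨Lb.s ⟨i, hi⟩, Lb.s ⟨i, hi⟩, Relation.ReflTransGen.single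
      (st1 n [] [] _ _ (Lb.s ⟨i, hi⟩) (Lb.s ⟨i, hi⟩) rfl rfl (by simp [succ']))⟩
  · refine ⟨Lb.p ⟨i, hi⟩, Lb.q2 ⟨i, hi⟩, ?_⟩
    have a1 := st1 n [Sum.inl (NT.Y ⟨i, hi⟩)] (List.replicate m (Sum.inl NT.A))
      (Sum.inl (NT.Y ⟨i, hi⟩) :: List.replicate (m + 1) (Sum.inl NT.A))
      (Sum.inl (NT.Y ⟨i, hi⟩) :: List.replicate (m + 1) (Sum.inl NT.A)) Lb.r
      (Lb.q1 ⟨i, hi⟩) rfl rfl (by simp [succ'])
    have a2 := reach_conv n ⟨i, hi⟩ (m + 1) 0
    rw [Nat.zero_add] at a2
    have a3 := ((reach_pump n ⟨i, hi⟩ m).tail a1).trans a2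
    rw [List.map_replicate]
    exact a3

/-- For every `n ≥ 1` the family `OND(P^{-ε}, n)` is strictly contained in
`OND(P^{-ε}, n + 1)`. -/
theorem result : ∀ n : ℕ, 1 ≤ n → OND n ⊂ OND (n + 1) := by
  intro n hn
  constructor
  · rintro L ⟨G, h1, h2, h3⟩
    exact ⟨G, h1, h2, h3.trans (Nat.le_succ n)⟩
  · intro hsub
    have hmem : LL n ∈ OND (n + 1) :=
      ⟨GG n, GG_prop n, Set.Subset.antisymm (lang_sub n) (sub_lang n), GG_ond n⟩
    obtain ⟨G, _, h2, h3⟩ := hsub hmem
    have := lower hn G h2
    omega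

end Pool.Agent.Results.MP_67c3d0_lc.OndHierarchy
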